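import Mathlib
import Pool.Agent.helper58.UF.Defs

/-!
# T6: the limit of `U₂(n,3k)/n^{2k}` exists (from the packing theorem T5)
-/

set_option autoImplicit false

namespace Pool.Agent.helper41.UF

open Finset UF58

/-! ### `U2` is attained -/

lemma U2_bdd (n r : ℕ) : BddAbove {e : ℕ | ∃ H : Finset (Finset (Fin n)), (∀ F ∈ H, F.card = r) ∧
    TwoUnionFree H ∧ H.card = e} := by
  refine ⟨Fintype.card (Finset (Fin n)), ?_⟩
  rintro e ⟨H, -, -, rfl⟩
  exact Finset.card_le_univ H

lemma U2_attained (n r : ℕ) : ∃ H : Finset (Finset (Fin n)), (∀ F ∈ H, F.card = r) ∧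
    TwoUnionFree H ∧ H.card = U2 n r := by
  have h : (U2 n r) ∈ {e : ℕ | ∃ H : Finset (Finset (Fin n)), (∀ F ∈ H, F.card = r) ∧
      TwoUnionFree H ∧ H.card = e} := by
    refine Nat.sSup_mem ⟨0, ∅, by simp, ?_, by simp⟩ (U2_bdd n r)
    intro A B hA _ h1 _ _ _ _
    rw [Finset.subset_empty] at hA
    rw [hA] at h1
    simp at h1
  exact h

lemma TwoUnionFree.mono {V : Type} [DecidableEq V] {H H' : Finset (Finset V)}
    (h : TwoUnionFree H) (hs : H' ⊆ H) : TwoUnionFree H' :=
  fun A B hA hB => h A B (hA.trans hs) (hB.trans hs)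

/-- the key injectivity -/
lemma pair_inj {V : Type} [DecidableEq V] {H : Finset (Finset V)} (h : TwoUnionFree H)
    {F F' G G' : Finset V} (hF : F ∈ H) (hF' : F' ∈ H) (hG : G ∈ H) (hG' : G' ∈ H)
    (hne : F ≠ F') (h1 : F \ F' = G \ G') (h2 : F' \ F = G' \ G) : F = G := by
  by_contra hFG
  -- `F ∪ G' = F' ∪ G`
  have hu : F ∪ G' = F' ∪ G := by
    ext x
    have e1 := Finset.ext_iff.1 h1 x
    have e2 := Finset.ext_iff.1 h2 x
    simp only [mem_sdiff, mem_union] at e1 e2 ⊢
    tauto
  have hpair : ∀ a b : Finset V, ({a, b} : Finset (Finset V)).biUnion id = a ∪ b := by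
    intro a b
    ext x
    simp
  have hcard : ∀ a b : Finset V, 1 ≤ ({a, b} : Finset (Finset V)).card ∧
      ({a, b} : Finset (Finset V)).card ≤ 2 := fun a b =>
    ⟨Finset.card_pos.2 ⟨a, by simp⟩, Finset.card_le_two⟩
  have hsub : ∀ a b : Finset V, a ∈ H → b ∈ H → ({a, b} : Finset (Finset V)) ⊆ H := by
    intro a b ha hb x hx
    simp only [mem_insert, mem_singleton] at hx
    rcases hx with rfl | rfl
    · exact ha
    · exact hb
  refine h {F, G'} {F', G} (hsub _ _ hF hG') (hsub _ _ hF' hG) (hcard _ _).1 (hcard _ _).2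
    (hcard _ _).1 (hcard _ _).2 ?_ (by rw [hpair, hpair, hu])
  intro heq
  have : F ∈ ({F', G} : Finset (Finset V)) := by
    rw [← heq]
    simp
  simp only [mem_insert, mem_singleton] at this
  rcases this with h | h
  · exact hne h
  · exact hFG h

/-- number of small subsets -/
def small (m j : ℕ) : Finset (Finset (Fin m)) :=
  univ.filter fun X => X.card ≤ j

lemma card_small_le (m j : ℕ) : (small m j).card ≤ (j + 1) * (m + 1) ^ j := by
  have h1 : small m j ⊆ (range (j + 1)).biUnion fun i => (univ : Finset (Fin m)).powersetCard i := by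
    intro X hX
    simp only [small, mem_filter, mem_univ, true_and] at hX
    simp only [mem_biUnion, mem_range, mem_powersetCard, subset_univ, true_and]
    exact ⟨X.card, by omega, rfl⟩
  calc (small m j).card ≤ _ := card_le_card h1
    _ ≤ ∑ i ∈ range (j + 1), ((univ : Finset (Fin m)).powersetCard i).card := card_biUnion_le
    _ ≤ ∑ i ∈ range (j + 1), (m + 1) ^ j := by
        refine sum_le_sum fun i hi => ?_
        rw [card_powersetCard, card_univ, Fintype.card_fin]
        calc m.choose i ≤ m ^ i := Nat.choose_le_pow m i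
          _ ≤ (m + 1) ^ i := Nat.pow_le_pow_left (by omega) i
          _ ≤ (m + 1) ^ j := Nat.pow_le_pow_right (by omega) (by
              rw [mem_range] at hi; omega)
    _ = (j + 1) * (m + 1) ^ j := by simp

/-- the members of `H` close to another member -/
noncomputable def close {m : ℕ} (H : Finset (Finset (Fin m))) (j : ℕ) : Finset (Finset (Fin m)) := by
  classical
  exact H.filter fun F => ∃ F' ∈ H, F' ≠ F ∧ (F \ F').card ≤ j ∧ (F' \ F).card ≤ j

lemma card_close_le {m : ℕ} {H : Finset (Finset (Fin m))} (h : TwoUnionFree H) (j : ℕ) :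
    (close H j).card ≤ ((j + 1) * (m + 1) ^ j) ^ 2 := by
  classical
  have h1 : ∀ F : Finset (Fin m), ∃ F' : Finset (Fin m), F ∈ close H j → F' ∈ H ∧ F' ≠ F ∧
      (F \ F').card ≤ j ∧ (F' \ F).card ≤ j := by
    intro F
    by_cases hF : F ∈ close H j
    · rw [close, mem_filter] at hF
      obtain ⟨-, F', h2, h3, h4, h5⟩ := hF
      exact ⟨F', fun _ => ⟨h2, h3, h4, h5⟩⟩
    · exact ⟨∅, fun h => absurd h hF⟩
  choose p hp using h1
  have hH : ∀ F ∈ close H j, F ∈ H := by
    intro F hF
    rw [close, mem_filter] at hF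
    exact hF.1
  calc (close H j).card ≤ (small m j ×ˢ small m j).card := by
        refine card_le_card_of_injOn (fun F => (F \ p F, p F \ F)) ?_ ?_
        · intro F hF
          obtain ⟨h2, h3, h4, h5⟩ := hp F hF
          simp only [coe_product, Set.mem_prod, small, coe_filter, mem_univ, true_and]
          exact ⟨h4, h5⟩
        · intro F hF G hG hFG
          simp only [Prod.mk.injEq] at hFG
          obtain ⟨h2, h3, -⟩ := hp F hF
          obtain ⟨g2, g3, -⟩ := hp G hG
          exact pair_inj h (hH F hF) h2 (hH G hG) g2 h3.symm hFG.1 hFG.2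
    _ = (small m j).card ^ 2 := by rw [card_product, sq]
    _ ≤ ((j + 1) * (m + 1) ^ j) ^ 2 := Nat.pow_le_pow_left (card_small_le m j) 2

lemma card_sdiff_of {m r : ℕ} {F F' : Finset (Fin m)} (hF : F.card = r) :
    (F \ F').card = r - (F ∩ F').card := by
  have := card_sdiff_add_card_inter F F'
  omega

/-- upper bound -/
lemma card_le_of_free {m k : ℕ} {H : Finset (Finset (Fin m))} (hr : ∀ F ∈ H, F.card = 3 * k)
    (h : TwoUnionFree H) : H.card ≤ m.choose (2 * k) + ((k + 1) * (m + 1) ^ k) ^ 2 := by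
  classical
  have h1 : (H \ close H k).card ≤ m.choose (2 * k) := by
    have h2 : ∀ F : Finset (Fin m), ∃ T : Finset (Fin m), F ∈ H \ close H k → T ⊆ F ∧
        T.card = 2 * k := by
      intro F
      by_cases hF : F ∈ H
      · obtain ⟨T, hT, hT'⟩ := exists_subset_card_eq (s := F) (n := 2 * k) (by
          rw [hr F hF]; omega)
        exact ⟨T, fun _ => ⟨hT, hT'⟩⟩
      · exact ⟨∅, fun h => absurd (mem_sdiff.1 h).1 hF⟩
    choose t ht using h2
    calc (H \ close H k).card ≤ ((univ : Finset (Fin m)).powersetCard (2 * k)).card := by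
          refine card_le_card_of_injOn t ?_ ?_
          · intro F hF
            rw [mem_coe, mem_powersetCard]
            exact ⟨subset_univ _, (ht F hF).2⟩
          · intro F hF G hG hFG
            by_contra hne
            have hF' := mem_sdiff.1 hF
            have hG' := mem_sdiff.1 hG
            apply hF'.2
            rw [close, mem_filter]
            have hinter : 2 * k ≤ (F ∩ G).card := by
              rw [← (ht F hF).2]
              refine card_le_card (subset_inter (ht F hF).1 ?_)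
              rw [hFG]
              exact (ht G hG).1
            refine ⟨hF'.1, G, hG'.1, fun h => hne h.symm, ?_, ?_⟩
            · rw [card_sdiff_of (hr F hF'.1)]
              omega
            · rw [card_sdiff_of (hr G hG'.1), inter_comm]
              omega
      _ = m.choose (2 * k) := by rw [card_powersetCard, card_univ, Fintype.card_fin]
  have h2 := card_close_le h k
  have h3 : close H k ⊆ H := by
    rw [close]
    exact filter_subset _ _
  have h4 := card_sdiff_add_card_eq_card h3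
  omega

/-- (ii) cleaning -/
lemma exists_good (m k : ℕ) (hk : 1 ≤ k) : ∃ G : Finset (Finset (Fin m)), Good k m G ∧
    U2 m (3 * k) ≤ G.card + (k * (m + 1) ^ (k - 1)) ^ 2 := by
  classical
  obtain ⟨H, h1, h2, h3⟩ := U2_attained m (3 * k)
  have hs : close H (k - 1) ⊆ H := by
    rw [close]
    exact filter_subset _ _
  refine ⟨H \ close H (k - 1), ⟨fun F hF => h1 F (mem_sdiff.1 hF).1,
    TwoUnionFree.mono h2 sdiff_subset, ?_⟩, ?_⟩
  · intro F hF F' hF' hne
    by_contra hcon
    push Not at hcon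
    have hF1 := mem_sdiff.1 hF
    have hF1' := mem_sdiff.1 hF'
    apply hF1.2
    rw [close, mem_filter]
    refine ⟨hF1.1, F', hF1'.1, fun h => hne h.symm, ?_, ?_⟩
    · rw [card_sdiff_of (h1 F hF1.1)]
      omega
    · rw [card_sdiff_of (h1 F' hF1'.1), inter_comm]
      omega
  · have h4 := card_close_le h2 (k - 1)
    have h5 := card_sdiff_add_card_eq_card hs
    have h6 : k - 1 + 1 = k := by omega
    rw [h6] at h4
    omega

lemma used_card_le (k g : ℕ) (G : Finset (Finset (Fin g))) :
    (used k g G).card ≤ g.choose (2 * k) := by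
  classical
  calc (used k g G).card ≤ ((univ : Finset (Fin g)).powersetCard (2 * k)).card := by
        rw [used]
        exact card_le_card (filter_subset _ _)
    _ = g.choose (2 * k) := by rw [card_powersetCard, card_univ, Fintype.card_fin]

lemma used_card_pos {k g : ℕ} {G : Finset (Finset (Fin g))} (hG : Good k g G)
    (hne : G.Nonempty) : 0 < (used k g G).card := by
  classical
  obtain ⟨F, hF⟩ := hne
  obtain ⟨T, hT, hT'⟩ := exists_subset_card_eq (s := F) (n := 2 * k) (by
    rw [hG.card F hF]; omega)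
  refine card_pos.2 ⟨T, ?_⟩
  rw [used, mem_filter, mem_powersetCard]
  exact ⟨⟨subset_univ _, hT'⟩, Or.inl ⟨F, hF, hT⟩⟩


/-! ### Analysis -/

open Filter Topology

lemma tendsto_choose_div (r : ℕ) :
    Tendsto (fun n : ℕ => (n.choose r : ℝ) / (n : ℝ) ^ r) atTop (𝓝 (1 / (r.factorial : ℝ))) := by
  have h1 := isEquivalent_choose r
  have h2 : ∀ᶠ n : ℕ in atTop, ((n : ℝ) ^ r / (r.factorial : ℝ)) ≠ 0 := by
    filter_upwards [eventually_ge_atTop 1] with n hn
    have : (0 : ℝ) < n := by exact_mod_cast hn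
    positivity
  have h3 := (Asymptotics.isEquivalent_iff_tendsto_one h2).1 h1
  have h4 := h3.mul_const (1 / (r.factorial : ℝ))
  rw [one_mul] at h4
  refine h4.congr' ?_
  filter_upwards [eventually_ge_atTop 1] with n hn
  have h5 : (0 : ℝ) < n := by exact_mod_cast hn
  have h6 : (0 : ℝ) < r.factorial := by exact_mod_cast r.factorial_pos
  simp only [Pi.div_apply]
  field_simp

lemma tendsto_succ_pow_div (j : ℕ) :
    Tendsto (fun n : ℕ => ((n : ℝ) + 1) ^ j / (n : ℝ) ^ j) atTop (𝓝 1) := by
  have h1 : Tendsto (fun n : ℕ => (1 : ℝ) + 1 / (n : ℝ)) atTop (𝓝 1) := by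
    have := (tendsto_one_div_atTop_nhds_zero_nat (𝕜 := ℝ)).const_add 1
    rwa [add_zero] at this
  have h2 := h1.pow j
  rw [one_pow] at h2
  refine h2.congr' ?_
  filter_upwards [eventually_ge_atTop 1] with n hn
  have h5 : (0 : ℝ) < n := by exact_mod_cast hn
  rw [← div_pow]
  congr 1
  field_simp

/-- `((k+1) (n+1)^k)^2 / C(n,2k)` is bounded -/
lemma tendsto_upper (k : ℕ) : Tendsto (fun n : ℕ => ((((k + 1) * (n + 1) ^ k) ^ 2 : ℕ) : ℝ) /
    (n.choose (2 * k) : ℝ)) atTop (𝓝 (((k : ℝ) + 1) ^ 2 * ((2 * k).factorial : ℝ))) := by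
  have h1 := ((tendsto_succ_pow_div (2 * k)).const_mul (((k : ℝ) + 1) ^ 2)).div
    (tendsto_choose_div (2 * k)) (by positivity)
  have h2 : ((k : ℝ) + 1) ^ 2 * 1 / (1 / ((2 * k).factorial : ℝ)) =
      ((k : ℝ) + 1) ^ 2 * ((2 * k).factorial : ℝ) := by
    rw [mul_one, div_div_eq_mul_div, div_one]
  rw [h2] at h1
  refine h1.congr' ?_
  filter_upwards [eventually_ge_atTop (2 * k + 1)] with n hn
  have h5 : (0 : ℝ) < n := by exact_mod_cast (by omega : 0 < n)
  have h6 : (0 : ℝ) < (n.choose (2 * k) : ℝ) := by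
    exact_mod_cast Nat.choose_pos (by omega : 2 * k ≤ n)
  push_cast
  simp only [Pi.div_apply]
  field_simp
  ring

lemma tendsto_lower (k : ℕ) (hk : 1 ≤ k) : Tendsto (fun n : ℕ =>
    (((k * (n + 1) ^ (k - 1)) ^ 2 : ℕ) : ℝ) / (n.choose (2 * k) : ℝ)) atTop (𝓝 0) := by
  have h0 : Tendsto (fun n : ℕ => (1 / (n : ℝ)) ^ 2) atTop (𝓝 0) := by
    have := (tendsto_one_div_atTop_nhds_zero_nat (𝕜 := ℝ)).pow 2
    rwa [zero_pow two_ne_zero] at this
  have h1 := (((tendsto_succ_pow_div (2 * (k - 1))).mul h0).const_mul ((k : ℝ) ^ 2)).div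
    (tendsto_choose_div (2 * k)) (by positivity)
  have h2 : (k : ℝ) ^ 2 * (1 * 0) / (1 / ((2 * k).factorial : ℝ)) = 0 := by simp
  rw [h2] at h1
  refine h1.congr' ?_
  filter_upwards [eventually_ge_atTop (2 * k + 1)] with n hn
  have h5 : (0 : ℝ) < n := by exact_mod_cast (by omega : 0 < n)
  have h6 : (0 : ℝ) < (n.choose (2 * k) : ℝ) := by
    exact_mod_cast Nat.choose_pos (by omega : 2 * k ≤ n)
  obtain ⟨j, rfl⟩ : ∃ j, k = j + 1 := ⟨k - 1, by omega⟩
  push_cast
  simp only [Pi.div_apply]
  field_simp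
  ring

theorem t6 (h5 : T5) : ∀ k : ℕ, 1 ≤ k → ∃ Lim : ℝ,
    Tendsto (fun n : ℕ => (U2 n (3 * k) : ℝ) / (n : ℝ) ^ (2 * k)) atTop (𝓝 Lim) := by
  intro k hk
  set a : ℕ → ℝ := fun n => (U2 n (3 * k) : ℝ) / (n.choose (2 * k) : ℝ) with ha
  set b : ℕ → ℝ := fun n => (((k * (n + 1) ^ (k - 1)) ^ 2 : ℕ) : ℝ) / (n.choose (2 * k) : ℝ)
    with hb
  have ha0 : ∀ n, 0 ≤ a n := fun n => by positivity
  have hb0 : ∀ n, 0 ≤ b n := fun n => by positivity
  have hcpos : ∀ n : ℕ, 2 * k ≤ n → (0 : ℝ) < (n.choose (2 * k) : ℝ) := fun n hn => by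
    exact_mod_cast Nat.choose_pos hn
  -- A
  have hA : ∀ m, 2 * k ≤ m → ∀ δ : ℝ, 0 < δ → ∀ᶠ n in atTop, a m - b m - δ ≤ a n := by
    intro m hm δ hδ
    obtain ⟨G, hG, hGc⟩ := exists_good m k hk
    by_cases hne : G.Nonempty
    · have hu0 : (0 : ℝ) < ((used k m G).card : ℝ) := by exact_mod_cast used_card_pos hG hne
      have hu1 : ((used k m G).card : ℝ) ≤ (m.choose (2 * k) : ℝ) := by
        exact_mod_cast used_card_le k m G
      set g : ℝ := (G.card : ℝ) / ((used k m G).card : ℝ) with hg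
      have hg0 : 0 ≤ g := by positivity
      have hgle : a m - b m ≤ g := by
        rw [ha, hb]
        simp only
        rw [← sub_div]
        calc _ ≤ (G.card : ℝ) / (m.choose (2 * k) : ℝ) := by
              apply div_le_div_of_nonneg_right _ (hcpos m hm).le
              have : (U2 m (3 * k) : ℝ) ≤ (G.card : ℝ) + (((k * (m + 1) ^ (k - 1)) ^ 2 : ℕ) : ℝ) := by
                exact_mod_cast hGc
              linarith
          _ ≤ g := by
              rw [hg]
              exact div_le_div_of_nonneg_left (by positivity) hu0 hu1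
      obtain ⟨n₀, hn₀⟩ := h5 k m G (δ / (g + 1)) hk hG hne (by positivity)
      filter_upwards [eventually_ge_atTop n₀, eventually_ge_atTop (2 * k)] with n hn hn2
      have h1 := hn₀ n hn
      have h2 : (1 - δ / (g + 1)) * g ≤ a n := by
        rw [ha]
        simp only
        rw [le_div_iff₀ (hcpos n hn2)]
        calc (1 - δ / (g + 1)) * g * (n.choose (2 * k) : ℝ)
            = (1 - δ / (g + 1)) * (G.card : ℝ) / ((used k m G).card : ℝ) *
              (n.choose (2 * k) : ℝ) := by rw [hg]; ring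
          _ ≤ _ := h1
      have h3 : δ / (g + 1) * g ≤ δ := by
        rw [div_mul_eq_mul_div, div_le_iff₀ (by positivity)]
        nlinarith
      nlinarith
    · have h1 : G.card = 0 := by
        rw [card_eq_zero]
        exact not_nonempty_iff_eq_empty.1 hne
      have h2 : a m - b m ≤ 0 := by
        rw [ha, hb]
        simp only
        rw [← sub_div]
        apply div_nonpos_of_nonpos_of_nonneg _ (hcpos m hm).le
        have : (U2 m (3 * k) : ℝ) ≤ (G.card : ℝ) + (((k * (m + 1) ^ (k - 1)) ^ 2 : ℕ) : ℝ) := by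
          exact_mod_cast hGc
        rw [h1] at this
        push_cast at this ⊢
        linarith
      exact Eventually.of_forall fun n => by linarith [ha0 n]
  -- B
  obtain ⟨A, hAb⟩ : ∃ A : ℝ, ∀ᶠ n in atTop, a n ≤ A := by
    refine ⟨1 + (((k : ℝ) + 1) ^ 2 * ((2 * k).factorial : ℝ) + 1), ?_⟩
    filter_upwards [(tendsto_upper k).eventually_lt_const (lt_add_one _),
      eventually_ge_atTop (2 * k)] with n hn hn2
    obtain ⟨H, h1, h2, h3⟩ := U2_attained n (3 * k)
    have h4 := card_le_of_free h1 h2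
    rw [h3] at h4
    have h5 : (U2 n (3 * k) : ℝ) ≤ (n.choose (2 * k) : ℝ) +
        ((((k + 1) * (n + 1) ^ k) ^ 2 : ℕ) : ℝ) := by exact_mod_cast h4
    rw [ha]
    simp only
    calc _ ≤ ((n.choose (2 * k) : ℝ) + ((((k + 1) * (n + 1) ^ k) ^ 2 : ℕ) : ℝ)) /
          (n.choose (2 * k) : ℝ) := div_le_div_of_nonneg_right h5 (hcpos n hn2).le
      _ = 1 + ((((k + 1) * (n + 1) ^ k) ^ 2 : ℕ) : ℝ) / (n.choose (2 * k) : ℝ) := by
          rw [add_div, div_self (hcpos n hn2).ne']
      _ ≤ _ := by linarith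
  obtain ⟨M₀, hM₀⟩ := eventually_atTop.1 hAb
  -- C
  let c : ℕ → ℝ := fun n => a n - b n
  let S : Set ℝ := c '' {m | max M₀ (2 * k) ≤ m}
  have hSne : S.Nonempty := ⟨_, max M₀ (2 * k), by simp, rfl⟩
  have hSb : BddAbove S := by
    refine ⟨A, ?_⟩
    rintro _ ⟨m, hm, rfl⟩
    have h1 := hM₀ m (le_trans (le_max_left _ _) hm)
    have h2 := hb0 m
    show a m - b m ≤ A
    linarith
  set L := sSup S with hL
  have hlim : Tendsto a atTop (𝓝 L) := by
    rw [tendsto_order]
    constructor
    · intro x hx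
      obtain ⟨y, ⟨m, hm, rfl⟩, hy⟩ := exists_lt_of_lt_csSup hSne hx
      have h1 := hA m (le_trans (le_max_right _ _) hm) ((c m - x) / 2) (by linarith)
      filter_upwards [h1] with n hn
      have : c m = a m - b m := rfl
      linarith
    · intro x hx
      have h1 := (tendsto_lower k hk).eventually_lt_const (u := x - L) (by linarith)
      filter_upwards [h1, eventually_ge_atTop (max M₀ (2 * k))] with n hn hn2
      have h2 : c n ≤ L := le_csSup hSb ⟨n, hn2, rfl⟩
      have h3 : c n = a n - b n := rfl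
      have h4 : b n < x - L := hn
      linarith
  refine ⟨L * (1 / ((2 * k).factorial : ℝ)), ?_⟩
  refine (hlim.mul (tendsto_choose_div (2 * k))).congr' ?_
  filter_upwards [eventually_ge_atTop (2 * k)] with n hn
  have h1 := hcpos n hn
  rw [ha]
  simp only
  rw [div_mul_div_comm, mul_comm (U2 n (3 * k) : ℝ), mul_div_mul_left _ _ h1.ne']

end Pool.Agent.helper41.UF
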